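import Mathlib

/-!
Greedy covering lemma: a monotone-subadditive left invariant set function on an amenable group
whose ratio `f D / |D|` can be made arbitrarily small has mean zero along every right Folner net.
-/

open Filter Topology

namespace Pool.Agent.MP_60863d_al.H86

variable {G : Type*} [Group G] [DecidableEq G]

/-- averaging: some left translate of `D` meets `U` in many points -/
lemma exists_translate (D U P : Finset G) (hPne : P.Nonempty)
    (hP : ∀ u ∈ U, ∀ d ∈ D, u * d⁻¹ ∈ P) :
    ∃ x : G, D.card * U.card ≤ P.card * (U ∩ D.image (x * ·)).card := by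
  have key : D.card * U.card ≤ ∑ x ∈ P, (U ∩ D.image (x * ·)).card := by
    have h1 : ∀ x ∈ P, (U ∩ D.image (x * ·)).card = ∑ d ∈ D, if x * d ∈ U then 1 else 0 := by
      intro x _
      rw [← Finset.card_filter]
      symm
      apply Finset.card_bij (fun d _ => x * d)
      · intro d hd
        rw [Finset.mem_filter] at hd
        exact Finset.mem_inter.2 ⟨hd.2, Finset.mem_image.2 ⟨d, hd.1, rfl⟩⟩
      · intro a _ b _ hab
        exact mul_left_cancel hab
      · intro b hb
        rw [Finset.mem_inter, Finset.mem_image] at hb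
        obtain ⟨hbU, d, hd, rfl⟩ := hb
        exact ⟨d, Finset.mem_filter.2 ⟨hd, hbU⟩, rfl⟩
    rw [Finset.sum_congr rfl h1, Finset.sum_comm]
    have h2 : ∀ d ∈ D, U.card ≤ ∑ x ∈ P, if x * d ∈ U then 1 else 0 := by
      intro d hd
      rw [← Finset.card_filter]
      apply Finset.card_le_card_of_injOn (fun u => u * d⁻¹)
      · intro u hu
        simp only [Finset.coe_filter, Set.mem_ofPred_eq]
        exact ⟨hP u hu d hd, by simpa using hu⟩
      · intro a _ b _ hab
        exact mul_right_cancel hab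
    calc D.card * U.card = ∑ _d ∈ D, U.card := by simp
      _ ≤ _ := Finset.sum_le_sum h2
  by_contra hcon
  push Not at hcon
  have : ∑ x ∈ P, P.card * (U ∩ D.image (x * ·)).card < ∑ _x ∈ P, D.card * U.card :=
    Finset.sum_lt_sum_of_nonempty hPne (fun x _ => hcon x)
  rw [← Finset.mul_sum, Finset.sum_const, smul_eq_mul] at this
  have h3 := Nat.mul_le_mul_left P.card key
  omega

/-- greedy covering -/
lemma greedy (f : Finset G → ℝ) (M : ℝ) (hM : 0 ≤ M)
    (hsub : ∀ U V W : Finset G, U ⊆ V ∪ W → f U ≤ f V + f W)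
    (hinv : ∀ (x : G) (D : Finset G), f (D.image (x * ·)) = f D)
    (hcard : ∀ U : Finset G, f U ≤ M * U.card)
    (D P : Finset G) (hD : D.Nonempty) (hPne : P.Nonempty) (η θ : ℝ) (hη : 0 ≤ η) (hθ : 0 < θ)
    (hfD : f D ≤ η * D.card) :
    ∀ (n : ℕ) (U : Finset G), U.card = n → (∀ u ∈ U, ∀ d ∈ D, u * d⁻¹ ∈ P) →
      f U ≤ η / θ * U.card + θ * M * P.card := by
  intro n
  induction n using Nat.strong_induction_on with
  | _ n ih =>
    intro U hU hP
    have hPpos : (0 : ℝ) < P.card := by exact_mod_cast hPne.card_pos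
    have hDpos : (0 : ℝ) < D.card := by exact_mod_cast hD.card_pos
    by_cases hsmall : (U.card : ℝ) ≤ θ * P.card
    · have h1 := hcard U
      have h2 : M * U.card ≤ M * (θ * P.card) := mul_le_mul_of_nonneg_left hsmall hM
      have h3 : 0 ≤ η / θ * U.card := by positivity
      nlinarith
    · push Not at hsmall
      obtain ⟨x, hx⟩ := exists_translate D U P hPne hP
      set V := D.image (x * ·) with hV
      have hx' : (D.card : ℝ) * U.card ≤ P.card * (U ∩ V).card := by exact_mod_cast hx
      have hbig : θ * D.card < ((U ∩ V).card : ℝ) := by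
        have : (P.card : ℝ) * (θ * D.card) < P.card * (U ∩ V).card := by nlinarith
        exact lt_of_mul_lt_mul_left this hPpos.le
      have hsplit : (U \ V).card + (U ∩ V).card = U.card := Finset.card_sdiff_add_card_inter U V
      have hpos : 0 < (U ∩ V).card := by
        have : (0 : ℝ) < (U ∩ V).card := lt_trans (by positivity) hbig
        exact_mod_cast this
      have hlt : (U \ V).card < n := by omega
      have h1 := ih _ hlt (U \ V) rfl (fun u hu => hP u (Finset.mem_sdiff.1 hu).1)
      have h2 : f U ≤ f V + f (U \ V) := hsub U V (U \ V) (by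
        intro u hu
        by_cases h : u ∈ V
        · exact Finset.mem_union_left _ h
        · exact Finset.mem_union_right _ (Finset.mem_sdiff.2 ⟨hu, h⟩))
      have h3 : f V = f D := hinv x D
      have hsplit' : ((U \ V).card : ℝ) + (U ∩ V).card = U.card := by exact_mod_cast hsplit
      have h4 : η * D.card ≤ η / θ * (U ∩ V).card := by
        have : η / θ * (θ * D.card) ≤ η / θ * (U ∩ V).card :=
          mul_le_mul_of_nonneg_left hbig.le (by positivity)
        calc η * D.card = η / θ * (θ * D.card) := by field_simp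
          _ ≤ _ := this
      have h5 : η / θ * U.card = η / θ * (U \ V).card + η / θ * (U ∩ V).card := by
        rw [← hsplit']; ring
      linarith

open scoped symmDiff in
/-- mean zero along a right Folner net -/
lemma tendsto_zero_of_small (f : Finset G → ℝ) (M : ℝ) (hM : 0 ≤ M) (hf0 : ∀ U, 0 ≤ f U)
    (hsub : ∀ U V W : Finset G, U ⊆ V ∪ W → f U ≤ f V + f W)
    (hinv : ∀ (x : G) (D : Finset G), f (D.image (x * ·)) = f D)
    (hcard : ∀ U : Finset G, f U ≤ M * U.card)
    (hsmall : ∀ η : ℝ, 0 < η → ∃ D : Finset G, D.Nonempty ∧ f D ≤ η * D.card)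
    {I : Type*} (l : Filter I) (F : I → Finset G) (hne : ∀ i, (F i).Nonempty)
    (hF : ∀ g : G, Tendsto (fun i => ((((F i).image (· * g)) ∆ (F i)).card : ℝ) / (F i).card)
      l (𝓝 0)) :
    Tendsto (fun i => f (F i) / (F i).card) l (𝓝 0) := by
  rw [Metric.tendsto_nhds]
  intro ε hε
  set θ : ℝ := ε / (2 * (1 + 2 * M)) with hθdef
  have hθ : 0 < θ := by positivity
  obtain ⟨D, hD, hfD⟩ := hsmall (θ ^ 2) (by positivity)
  have hDpos : (0 : ℝ) < D.card := by exact_mod_cast hD.card_pos
  have hev : ∀ᶠ i in l, ∀ d ∈ D,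
      ((((F i).image (· * d⁻¹)) ∆ (F i)).card : ℝ) / (F i).card < 1 / D.card := by
    rw [Filter.eventually_all_finset]
    intro d _
    exact (hF d⁻¹).eventually (gt_mem_nhds (by positivity))
  filter_upwards [hev] with i hi
  have hFpos : (0 : ℝ) < (F i).card := by exact_mod_cast (hne i).card_pos
  set P : Finset G := F i ∪ D.biUnion (fun d => ((F i).image (· * d⁻¹)) ∆ (F i)) with hPdef
  have hPne : P.Nonempty := (hne i).mono Finset.subset_union_left
  have hP : ∀ u ∈ F i, ∀ d ∈ D, u * d⁻¹ ∈ P := by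
    intro u hu d hd
    by_cases h : u * d⁻¹ ∈ F i
    · exact Finset.mem_union_left _ h
    · apply Finset.mem_union_right
      rw [Finset.mem_biUnion]
      refine ⟨d, hd, ?_⟩
      rw [Finset.mem_symmDiff]
      exact Or.inl ⟨Finset.mem_image.2 ⟨u, hu, rfl⟩, h⟩
  have hPcard : (P.card : ℝ) ≤ 2 * (F i).card := by
    have h1 : P.card ≤ (F i).card + ∑ d ∈ D, (((F i).image (· * d⁻¹)) ∆ (F i)).card :=
      (Finset.card_union_le _ _).trans (Nat.add_le_add_left Finset.card_biUnion_le _)
    have h2 : (P.card : ℝ) ≤ (F i).card + ∑ d ∈ D, ((((F i).image (· * d⁻¹)) ∆ (F i)).card : ℝ) := by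
      exact_mod_cast h1
    have h3 : ∑ d ∈ D, ((((F i).image (· * d⁻¹)) ∆ (F i)).card : ℝ)
        ≤ ∑ _d ∈ D, ((F i).card : ℝ) / D.card := by
      apply Finset.sum_le_sum
      intro d hd
      have := hi d hd
      rw [div_lt_div_iff₀ hFpos hDpos] at this
      rw [le_div_iff₀ hDpos]
      linarith
    rw [Finset.sum_const, nsmul_eq_mul, mul_div_cancel₀ _ hDpos.ne'] at h3
    linarith
  have hg := greedy f M hM hsub hinv hcard D P hD hPne (θ ^ 2) θ (by positivity) hθ hfD _ (F i) rfl hP
  have h1 : θ ^ 2 / θ = θ := by field_simp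
  rw [h1] at hg
  have h2 : θ * M * P.card ≤ θ * M * (2 * (F i).card) :=
    mul_le_mul_of_nonneg_left hPcard (by positivity)
  rw [Real.dist_eq, sub_zero, abs_of_nonneg (div_nonneg (hf0 _) hFpos.le), div_lt_iff₀ hFpos]
  have h3 : θ * (1 + 2 * M) = ε / 2 := by rw [hθdef]; field_simp
  have h4 : f (F i) ≤ θ * (1 + 2 * M) * (F i).card := by nlinarith
  rw [h3] at h4
  nlinarith

end Pool.Agent.MP_60863d_al.H86
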